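import Pool.Agent.Lib.MP_0fee77_co.Lower
import Pool.Agent.Lib.MP_0fee77_co.Upper

set_option autoImplicit false

open Pool.Agent.Lib.MP_0fee77_co

namespace Pool.Agent.Results.MP_0fee77_co.LinearGap

/-- For every `s ≥ 4`, all large `r` and then all large `n`, the saturation number of the
cycles with length in `[s, r]` is smaller than that of the cycles of length at least `s`
by more than `n / 32`. -/
theorem result : ∀ s : ℕ, 4 ≤ s → ∃ r₀ : ℕ, ∀ r : ℕ, r₀ ≤ r → ∃ n₀ : ℕ, ∀ n : ℕ, n₀ ≤ n →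
    32 * sat n (Set.Icc s r) + n < 32 * sat n (Set.Ici s) := by
  intro s hs
  obtain ⟨r0, h⟩ := sat_Icc_ratio s 64 hs
  refine ⟨r0, fun r hr => ?_⟩
  obtain ⟨n0, h1⟩ := h r hr
  refine ⟨n0 + 7, fun n hn => ?_⟩
  have h2 := h1 n (by omega)
  obtain ⟨G, hG, he⟩ := exists_sat_eq n (I := Set.Ici s)
    (fun m hm => by have : s ≤ m := hm; omega)
  have h3 := lower_bound hs hG (by rw [Fintype.card_fin]; omega)
  rw [Fintype.card_fin, he] at h3
  omega

end Pool.Agent.Results.MP_0fee77_co.LinearGap
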