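import Pool.Agent.Lib.MP_0fee77_co.Upper

set_option autoImplicit false

open Pool.Agent.Lib.MP_0fee77_co

namespace Pool.Agent.Results.MP_0fee77_co.RatioOne

/-- For every `s ≥ 4` and `ε > 0`, all large `r` and then all large `n`:
`sat(n, C_[s,r]) ≤ (1 + ε) n`. -/
theorem result : ∀ s : ℕ, 4 ≤ s → ∀ ε : ℝ, 0 < ε →
    ∃ r₀ : ℕ, ∀ r : ℕ, r₀ ≤ r → ∃ n₀ : ℕ, ∀ n : ℕ, n₀ ≤ n →
      (sat n (Set.Icc s r) : ℝ) ≤ (1 + ε) * n := by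
  intro s hs ε hε
  obtain ⟨K, hK⟩ := exists_nat_gt (1 / ε)
  have hK0 : (0 : ℝ) < K := lt_trans (by positivity) hK
  have hK1 : 1 ≤ ε * K := by
    rw [div_lt_iff₀ hε] at hK
    linarith
  obtain ⟨r0, h⟩ := sat_Icc_ratio s K hs
  refine ⟨r0, fun r hr => ?_⟩
  obtain ⟨n0, h1⟩ := h r hr
  refine ⟨n0, fun n hn => ?_⟩
  have h2 : (K : ℝ) * (sat n (Set.Icc s r) : ℝ) ≤ (K + 1) * n := by exact_mod_cast h1 n hn
  have hn0 : (0 : ℝ) ≤ n := Nat.cast_nonneg n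
  have h3 : (K : ℝ) * (sat n (Set.Icc s r) : ℝ) ≤ K * ((1 + ε) * n) := by
    nlinarith [mul_le_mul_of_nonneg_right hK1 hn0]
  exact le_of_mul_le_mul_left h3 hK0

end Pool.Agent.Results.MP_0fee77_co.RatioOne
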